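import Pool.Agent.Helper78.LD10.Defs
import Pool.Agent.Helper83.LD8.GM
import Pool.Agent.Helper8.LD8.WinF

/-!
# LD10, block MASK: a masked sequence of functions
-/

set_option autoImplicit false

namespace Pool.Agent.Helper8.LD10

open Set MeasureTheory Filter Topology
open Pool.Agent.Helper41.LD4 (NB NBg)
open Pool.Agent.Helper41.LD6 (Qs vq Wq)
open Pool.Agent.Helper78.LD8 (Pm Uf Tt)
open Pool.Agent.Helper78.LD10

/-- a masked sequence of functions has the windows of the sequence -/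
theorem Wq_mask {G : ℕ → ℝ → ℝ} {w η : ℝ} {H n : ℕ} {a ℓ : ℝ} (h : Wq G w η H n a ℓ) (P : ℕ → Prop) [DecidablePred P] :
    Wq (fun j x => if P j then G j x else 0) w η H n a ℓ := by
  refine ⟨h.pos, h.w0, h.η0, h.ηH, fun j => ?_, fun j x => ?_, fun j hj x => ?_, fun j hj => ?_, fun j hj => ?_, fun j₁ j₂ hj hjj => ?_⟩
  · by_cases hP : P j
    · simp only [hP, if_true]; exact h.meas j
    · simp only [hP, if_false]; exact measurable_const
  · by_cases hP : P j
    · simp only [hP, if_true]; exact h.bdd j x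
    · simp only [hP, if_false, abs_zero]; exact zero_le_one
  · by_cases hP : P j
    · simp only [hP, if_true]; exact h.zero j hj x
    · simp only [hP, if_false]
  · by_cases hP : P j
    · simp only [hP, if_true]; exact h.tail j hj
    · simp only [hP, if_false, intervalIntegral.integral_zero, abs_zero]
      exact mul_nonneg (mul_nonneg h.w0 h.η0) h.pos.le
  · by_cases hP : P j
    · simp only [hP, if_true]; exact h.sq j hj
    · simp only [hP, if_false, mul_zero, intervalIntegral.integral_zero]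
      exact mul_nonneg h.w0 h.pos.le
  · by_cases hP : P j₁
    · by_cases hP' : P j₂
      · simp only [hP, hP', if_true]; exact h.cov j₁ j₂ hj hjj
      · simp only [hP', if_false, mul_zero, intervalIntegral.integral_zero, abs_zero]
        exact mul_nonneg (mul_nonneg h.w0 h.η0) h.pos.le
    · simp only [hP, if_false, zero_mul, intervalIntegral.integral_zero, abs_zero]
      exact mul_nonneg (mul_nonneg h.w0 h.η0) h.pos.le

/-- a masked sequence is constant where the sequence is -/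
theorem NB_mask {G : ℕ → ℝ → ℝ} {n r : ℕ} {a ℓ : ℝ} (h : NB G n r a ℓ) (P : ℕ → Prop) [DecidablePred P] :
    NB (fun j x => if P j then G j x else 0) n r a ℓ := by
  intro j hj x hx
  by_cases hP : P j
  · simp only [hP, if_true]; exact h j hj x hx
  · simp only [hP, if_false]

variable {F : Pm} {Q K : ℕ} {ℓst a ℓ x : ℝ} {u u' : ℕ × (Fin (F.d + 1) → ℕ)} {j j' : ℕ}

theorem Is_snd (hu : u ∈ Is F Q K) : u.2 ∈ Qs F.d K := (Finset.mem_product.1 hu).2

theorem Is_fst (hu : u ∈ Is F Q K) : u.1 < Q := Finset.mem_range.1 (Finset.mem_product.1 hu).1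

theorem G_meas (K : ℕ) (ℓst : ℝ) (hu : u ∈ Is F Q K) (j : ℕ) : Measurable (G F Q K ℓst u j) := by
  unfold G
  by_cases h : (F.n₀ K ℓst + j) % Q = u.1
  · simp only [h, if_true]
    exact Pool.Agent.Helper83.LD8.G_meas K ℓst (Is_snd hu) j
  · simp only [h, if_false]
    exact measurable_const

theorem G_bdd (K : ℕ) (ℓst : ℝ) (hu : u ∈ Is F Q K) (j : ℕ) (x : ℝ) : |G F Q K ℓst u j x| ≤ 1 := by
  unfold G
  split_ifs
  · exact Pool.Agent.Helper83.LD8.G_bdd K ℓst (Is_snd hu) j x
  · rw [abs_zero]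
    exact zero_le_one

theorem G_NB (hu : u ∈ Is F Q K) {n r : ℕ} (h : NBg (F.U K ℓst) (n + F.d) r (2 ^ K) a ℓ) : NB (G F Q K ℓst u) n r a ℓ :=
  NB_mask (Pool.Agent.Helper83.LD8.G_NB (Is_snd hu) h) fun j => (F.n₀ K ℓst + j) % Q = u.1

theorem win (hF : F.Ok) (hK : F.Big K) (hN : F.NR K) (hℓ : 0 < ℓ) (hu : u ∈ Is F Q K) (a : ℝ) :
    Wq (G F Q K ℓst u) (2 * vq u.2) ((1 / 2) ^ (2 * F.e K)) (2 ^ (2 * K)) (F.T K ℓst ℓ) a ℓ :=
  Wq_mask (Pool.Agent.Helper8.LD8.win hF hK hN hℓ (Is_snd hu) a) fun j => (F.n₀ K ℓst + j) % Q = u.1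

end Pool.Agent.Helper8.LD10
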